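import Pool.Agent.Work.MP_223b32_es.Interface

/-! `el_blocks` CSM: sums of quadratic characters modulo `4`. -/

namespace Pool.Agent.Work.ES

open Finset Polynomial Module Pool.Agent.Work.MP_223b32_ag Pool.Agent.Work.TC

namespace CSM

theorem aux {E : Type} [Field E] [Fintype E] [DecidableEq E] (ι : Type)
    (v : ι → E) (s : Finset ι) (hs : ∀ i ∈ s, v i ≠ 0) :
    ∑ i ∈ s, quadraticChar E (v i) ≡ (s.card : ℤ) - 1 + quadraticChar E (∏ i ∈ s, v i)
      [ZMOD 4] := by
  classical
  induction s using Finset.induction_on with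
  | empty => simp
  | insert a s ha ih =>
    have h1 := ih fun i hi => hs i (mem_insert_of_mem hi)
    have h2 : v a ≠ 0 := hs a (mem_insert_self _ _)
    have h3 : ∏ i ∈ s, v i ≠ 0 :=
      Finset.prod_ne_zero_iff.2 fun i hi => hs i (mem_insert_of_mem hi)
    rw [sum_insert ha, prod_insert ha, card_insert_of_notMem ha, map_mul]
    have e2 := quadraticChar_dichotomy h2
    have e3 := quadraticChar_dichotomy h3
    generalize quadraticChar E (v a) = A at *
    generalize quadraticChar E (∏ i ∈ s, v i) = B at *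
    generalize (∑ i ∈ s, quadraticChar E (v i)) = S at *
    push_cast
    rw [Int.modEq_iff_dvd] at h1 ⊢
    obtain ⟨c, hc⟩ := h1
    rcases e2 with rfl | rfl <;> rcases e3 with rfl | rfl
    · exact ⟨c, by linarith⟩
    · exact ⟨c, by linarith⟩
    · exact ⟨c, by linarith⟩
    · exact ⟨c + 1, by linarith⟩

end CSM

theorem stmt_CSM : Stmt_CSM := by
  intro E _ _ _ _ ι _ v
  have h := CSM.aux ι v (univ.filter fun i => v i ≠ 0) fun i hi => (mem_filter.1 hi).2
  have e : ∑ i, quadraticChar E (v i) =
      ∑ i ∈ univ.filter (fun i => v i ≠ 0), quadraticChar E (v i) := by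
    rw [Finset.sum_filter]
    refine Finset.sum_congr rfl fun i _ => ?_
    split_ifs with h0
    · rfl
    · rw [not_not] at h0
      rw [h0]
      simp
  rw [e]
  exact h

end Pool.Agent.Work.ES
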