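import Pool.Agent.Work.MP_223b32_es.Interface

/-! `el_blocks` PT: the number of points of the surface. -/

namespace Pool.Agent.Work.ES

open Finset Polynomial Module Pool.Agent.Work.MP_223b32_ag Pool.Agent.Work.TC

theorem stmt_PT : Stmt_PT := by
  intro F E _ _ _ _ _ hE m D
  classical
  have e0 : Nat.card {P : E × E × E // P.2.2 ^ 2 = aeval P.2.1 D * (aeval P.1 m - P.2.1)} =
      ∑ x : E, ∑ t : E, (univ.filter fun w : E => w ^ 2 = aeval t D * (aeval x m - t)).card := by
    rw [Nat.card_eq_fintype_card, Fintype.card_subtype, Finset.card_filter]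
    rw [Fintype.sum_prod_type]
    refine Finset.sum_congr rfl fun x _ => ?_
    rw [Fintype.sum_prod_type]
    refine Finset.sum_congr rfl fun t _ => ?_
    rw [Finset.card_filter]
  have e1 : ∀ a : E, (((univ.filter fun w : E => w ^ 2 = a).card : ℕ) : ℤ) =
      quadraticChar E a + 1 := by
    intro a
    have h := quadraticChar_card_sqrts hE a
    rw [← h]
    congr 2
    ext w
    simp
  rw [e0]
  push_cast
  simp_rw [e1]
  unfold NN
  simp only [Finset.sum_add_distrib, Finset.sum_const, Finset.card_univ, smul_eq_mul, nsmul_eq_mul,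
    mul_one]
  ring

end Pool.Agent.Work.ES
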